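import Pool.Agent.H62.UN.Targets

/-!
# The charts are finitely generated (FGR)
-/

set_option autoImplicit false

namespace Pool.Agent.H54.UNT

open Polynomial Pool.Agent.H17.UN Pool.Agent.H62.UN

theorem fg_three {k F : Type} [Field k] [Field F] [Algebra k F] (a b c : F) :
    (Algebra.adjoin k {a, b, c}).FG :=
  Subalgebra.fg_def.2 ⟨{a, b, c}, Set.toFinite _, rfl⟩

theorem pf_FGR : T_FGR := by
  intro k F _ _ _ s y z i
  fin_cases i
  · exact fg_three s y z
  · exact fg_three s (y / z) z⁻¹
  · exact fg_three s⁻¹ (y / s ^ 2) (z / s)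
  · exact fg_three s⁻¹ (y / (s * z)) (s / z)

end Pool.Agent.H54.UNT
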